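import Mathlib

/-!
# Restricted representation and action monoids need not be finitely generated

The group is `G = ⟨a, t, h | t a t⁻¹ = a², h² = 1, [h, a h a⁻¹] = 1⟩` and the finite subgroup is
`H = ⟨h, a h a⁻¹⟩`.
-/

noncomputable section

namespace Pool.Agent.Results.MP_af3a77_al.NotFinitelyGenerated

/-- the Hilbert space of dimension `n` -/
abbrev E (n : ℕ) : Type := EuclideanSpace ℂ (Fin n)

/-- the unitary group of `E n` -/
def U (n : ℕ) : Type := E n ≃ₗᵢ[ℂ] E n

instance (n : ℕ) : Group (U n) := LinearIsometryEquiv.instGroup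

/-- application of a unitary map to a vector -/
def U.ap {n : ℕ} (u : U n) (v : E n) : E n := LinearIsometryEquiv.toLinearEquiv u v

/-- linear combination -/
def lc {n : ℕ} (z : ℂ) (v w : E n) : E n := z • v + w

/-- the direct sum of `c j` copies of `E (d j)`, over all `j` -/
def DSum {r : ℕ} (d c : Fin r → ℕ) : Type := ∀ j, Fin (c j) → E (d j)

/-- an isomorphism of vector spaces from `E n` to the direct sum -/
def IsIso {r : ℕ} {d c : Fin r → ℕ} {n : ℕ} (e : E n → DSum d c) : Prop :=
  Function.Bijective e ∧ ∀ z v w j k, e (lc z v w) j k = lc z (e v j k) (e w j k)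

/-- the restriction of `psi` to `H` is isomorphic to the direct sum of `c j` copies of the
restriction of `phi j`, over all `j` -/
def SameR {G : Type} [Group G] (H : Subgroup G) {r : ℕ} {d : Fin r → ℕ} (phi : ∀ j, G →* U (d j))
    (c : Fin r → ℕ) {n : ℕ} (psi : G →* U n) : Prop :=
  ∃ e : E n → DSum d c, IsIso e ∧
    ∀ h ∈ H, ∀ v j k, e ((psi h).ap v) j k = (phi j h).ap (e v j k)

/-- setting (R): the image of the restriction map is a finitely generated monoid. There are finitely
many unitary representations `phi j` of `G` such that the restriction to `H` of every unitary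
representation of `G` is isomorphic to a direct sum of copies of the restrictions of the `phi j`. -/
def FinGenR (G : Type) [Group G] (H : Subgroup G) : Prop :=
  ∃ (r : ℕ) (d : Fin r → ℕ) (phi : ∀ j, G →* U (d j)),
    ∀ (n : ℕ) (psi : G →* U n), ∃ c : Fin r → ℕ, SameR H phi c psi

/-- the disjoint union of `c j` copies of `Fin (d j)`, over all `j` -/
def DUnion {r : ℕ} (d c : Fin r → ℕ) : Type := Σ j, Fin (c j) × Fin (d j)

/-- an element of `G` moves a point of the disjoint union -/
def mv {G : Type} [Group G] {r : ℕ} {d : Fin r → ℕ} (phi : ∀ j, G →* Equiv.Perm (Fin (d j)))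
    (c : Fin r → ℕ) (g : G) (y : DUnion d c) : DUnion d c := ⟨y.1, y.2.1, phi y.1 g y.2.2⟩

/-- the restriction of `psi` to `H` is isomorphic to the disjoint union of `c j` copies of the
restriction of `phi j`, over all `j` -/
def SameA {G : Type} [Group G] (H : Subgroup G) {r : ℕ} {d : Fin r → ℕ}
    (phi : ∀ j, G →* Equiv.Perm (Fin (d j))) (c : Fin r → ℕ) {n : ℕ}
    (psi : G →* Equiv.Perm (Fin n)) : Prop :=
  ∃ e : Fin n ≃ DUnion d c, ∀ h ∈ H, ∀ x, e (psi h x) = mv phi c h (e x)

/-- setting (A): the same for actions on finite sets and disjoint unions -/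
def FinGenA (G : Type) [Group G] (H : Subgroup G) : Prop :=
  ∃ (r : ℕ) (d : Fin r → ℕ) (phi : ∀ j, G →* Equiv.Perm (Fin (d j))),
    ∀ (n : ℕ) (psi : G →* Equiv.Perm (Fin n)), ∃ c : Fin r → ℕ, SameA H phi c psi

/-! ### Reformulation with bundled maps -/

/-- `FinGenR` with bundled linear equivalences -/
def FinGenR' (G : Type) [Group G] (H : Subgroup G) : Prop :=
  ∃ (r : ℕ) (d : Fin r → ℕ) (phi : ∀ j, G →* (E (d j) ≃ₗᵢ[ℂ] E (d j))),
    ∀ (n : ℕ) (psi : G →* (E n ≃ₗᵢ[ℂ] E n)),
      ∃ (c : Fin r → ℕ) (e : E n ≃ₗ[ℂ] (∀ j, Fin (c j) → E (d j))),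
        ∀ h ∈ H, ∀ v j k, e (psi h v) j k = phi j h (e v j k)

/-- `FinGenA` unfolded -/
def FinGenA' (G : Type) [Group G] (H : Subgroup G) : Prop :=
  ∃ (r : ℕ) (d : Fin r → ℕ) (phi : ∀ j, G →* Equiv.Perm (Fin (d j))),
    ∀ (n : ℕ) (psi : G →* Equiv.Perm (Fin n)),
      ∃ (c : Fin r → ℕ) (e : Fin n ≃ Σ j, Fin (c j) × Fin (d j)),
        ∀ h ∈ H, ∀ x, e (psi h x) = ⟨(e x).1, (e x).2.1, phi (e x).1 h (e x).2.2⟩

lemma finGenR' {G : Type} [Group G] {H : Subgroup G} (hG : FinGenR G H) : FinGenR' G H := by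
  obtain ⟨r, d, phi, hgen⟩ := hG
  refine ⟨r, d, phi, fun n psi => ?_⟩
  obtain ⟨c, e, ⟨hbij, hlin⟩, heq⟩ := hgen n psi
  let e' : E n → (∀ j, Fin (c j) → E (d j)) := e
  have hlin' : ∀ (z : ℂ) (v w : E n), e' (z • v + w) = z • e' v + e' w := by
    intro z v w
    funext j k
    exact hlin z v w j k
  have h0 : e' 0 = 0 := by
    have h1 := hlin' 1 0 0
    rw [one_smul, one_smul, add_zero] at h1
    exact left_eq_add.mp h1
  let l : E n →ₗ[ℂ] (∀ j, Fin (c j) → E (d j)) := {
    toFun := e'
    map_add' := by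
      intro v w
      have h1 := hlin' 1 v w
      rwa [one_smul, one_smul] at h1
    map_smul' := by
      intro z v
      have h1 := hlin' z v 0
      rw [h0, add_zero, add_zero] at h1
      exact h1 }
  have hl : Function.Bijective l := hbij
  exact ⟨c, LinearEquiv.ofBijective l hl, heq⟩

lemma finGenA' {G : Type} [Group G] {H : Subgroup G} (hG : FinGenA G H) : FinGenA' G H := hG

/-! ### The group -/

/-- the relators -/
def rels : Set (FreeGroup (Fin 3)) :=
  {FreeGroup.of 1 * FreeGroup.of 0 * (FreeGroup.of 1)⁻¹ * (FreeGroup.of 0 * FreeGroup.of 0)⁻¹,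
   FreeGroup.of 2 * FreeGroup.of 2,
   FreeGroup.of 2 * (FreeGroup.of 0 * FreeGroup.of 2 * (FreeGroup.of 0)⁻¹) *
    ((FreeGroup.of 0 * FreeGroup.of 2 * (FreeGroup.of 0)⁻¹) * FreeGroup.of 2)⁻¹}

/-- the group `⟨a, t, h | t a t⁻¹ = a², h² = 1, [h, a h a⁻¹] = 1⟩` -/
abbrev Gam : Type := PresentedGroup rels

def a : Gam := PresentedGroup.of 0
def t : Gam := PresentedGroup.of 1
def h : Gam := PresentedGroup.of 2

/-- the conjugate of `h` -/
def h' : Gam := a * h * a⁻¹

lemma rel1 : t * a * t⁻¹ = a * a := by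
  have h1 : (PresentedGroup.mk rels) (FreeGroup.of 1 * FreeGroup.of 0 * (FreeGroup.of 1)⁻¹ *
      (FreeGroup.of 0 * FreeGroup.of 0)⁻¹) = 1 :=
    PresentedGroup.one_of_mem (Or.inl rfl)
  rw [map_mul, map_inv, map_mul, map_mul, map_mul, map_inv, mul_inv_eq_one] at h1
  exact h1

lemma rel2 : h * h = 1 := by
  have h1 : (PresentedGroup.mk rels) (FreeGroup.of 2 * FreeGroup.of 2) = 1 :=
    PresentedGroup.one_of_mem (Or.inr (Or.inl rfl))
  rw [map_mul] at h1
  exact h1

lemma rel3 : h * h' = h' * h := by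
  have h1 : (PresentedGroup.mk rels) (FreeGroup.of 2 * (FreeGroup.of 0 * FreeGroup.of 2 *
      (FreeGroup.of 0)⁻¹) * ((FreeGroup.of 0 * FreeGroup.of 2 * (FreeGroup.of 0)⁻¹) *
        FreeGroup.of 2)⁻¹) = 1 :=
    PresentedGroup.one_of_mem (Or.inr (Or.inr rfl))
  rw [map_mul, map_inv, mul_inv_eq_one] at h1
  simp only [map_mul, map_inv] at h1
  exact h1

/-- homomorphisms out of the group -/
def lift {K : Type} [Group K] (x : Fin 3 → K) (h1 : x 1 * x 0 * (x 1)⁻¹ = x 0 * x 0)
    (h2 : x 2 * x 2 = 1)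
    (h3 : x 2 * (x 0 * x 2 * (x 0)⁻¹) = (x 0 * x 2 * (x 0)⁻¹) * x 2) : Gam →* K :=
  PresentedGroup.toGroup (rels := rels) (f := x) (by
    rintro r (rfl | rfl | rfl)
    · simp only [map_mul, map_inv, FreeGroup.lift_apply_of]
      rw [h1, mul_inv_cancel]
    · simp only [map_mul, FreeGroup.lift_apply_of]
      exact h2
    · simp only [map_mul, map_inv, FreeGroup.lift_apply_of]
      rw [h3, mul_inv_cancel])

lemma lift_of {K : Type} [Group K] (x : Fin 3 → K) (h1 : x 1 * x 0 * (x 1)⁻¹ = x 0 * x 0)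
    (h2 : x 2 * x 2 = 1)
    (h3 : x 2 * (x 0 * x 2 * (x 0)⁻¹) = (x 0 * x 2 * (x 0)⁻¹) * x 2) (i : Fin 3) :
    lift x h1 h2 h3 (PresentedGroup.of i) = x i := by
  unfold lift
  exact PresentedGroup.toGroup.of _

lemma fg : Group.FG Gam := by
  rw [Group.fg_iff]
  refine ⟨Set.range (PresentedGroup.of (rels := rels)), PresentedGroup.closure_range_of rels, ?_⟩
  exact Set.finite_range _

lemma h'h' : h' * h' = 1 := by
  unfold h'
  calc a * h * a⁻¹ * (a * h * a⁻¹) = a * (h * h) * a⁻¹ := by group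
    _ = 1 := by rw [rel2]; group

/-- the finite subgroup `⟨h, a h a⁻¹⟩` -/
def H : Subgroup Gam where
  carrier := {1, h, h', h * h'}
  one_mem' := Or.inl rfl
  mul_mem' := by
    have e1 := rel2
    have e2 := h'h'
    have e3 := rel3
    rintro x y (rfl | rfl | rfl | rfl) (rfl | rfl | rfl | rfl)
    · left; rw [mul_one]
    · right; left; rw [one_mul]
    · right; right; left; rw [one_mul]
    · right; right; right; rw [one_mul]; rfl
    · right; left; rw [mul_one]
    · left; exact e1
    · right; right; right; rfl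
    · right; right; left; rw [← mul_assoc, e1, one_mul]
    · right; right; left; rw [mul_one]
    · right; right; right; rw [← e3]; rfl
    · left; exact e2
    · right; left; rw [e3, ← mul_assoc, e2, one_mul]
    · right; right; right; rw [mul_one]; rfl
    · right; right; left; rw [e3, mul_assoc, e1, mul_one]
    · right; left; rw [mul_assoc, e2, mul_one]
    · left
      calc h * h' * (h * h') = h * (h' * h) * h' := by group
        _ = (h * h) * (h' * h') := by rw [← e3]; group
        _ = 1 := by rw [e1, e2, one_mul]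
  inv_mem' := by
    have e1 : h⁻¹ = h := inv_eq_of_mul_eq_one_right rel2
    have e2 : h'⁻¹ = h' := inv_eq_of_mul_eq_one_right h'h'
    rintro x (rfl | rfl | rfl | rfl)
    · left; exact inv_one
    · right; left; exact e1
    · right; right; left; exact e2
    · right; right; right
      rw [mul_inv_rev, e1, e2, ← rel3]
      rfl

lemma finiteH : Finite H := by
  have : ({1, h, h', h * h'} : Set Gam).Finite := Set.toFinite _
  exact this

lemma mem_H : h * h' ∈ H := Or.inr (Or.inr (Or.inr rfl))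
lemma mem_h : h ∈ H := Or.inr (Or.inl rfl)
lemma mem_h' : h' ∈ H := Or.inr (Or.inr (Or.inl rfl))

/-! ### The linear setting -/

/-- no invertible endomorphism is similar both to its square and to its negative -/
lemma key {V : Type} [AddCommGroup V] [Module ℂ V] [FiniteDimensional ℂ V] [Nontrivial V]
    (A T D : (Module.End ℂ V)ˣ) (h1 : T * A * T⁻¹ = A * A)
    (h2 : (A * D : (Module.End ℂ V)ˣ).val = -(D * A : (Module.End ℂ V)ˣ).val) : False := by
  have hfin : (spectrum ℂ (A : Module.End ℂ V)).Finite := Module.End.finite_spectrum _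
  have hne : (spectrum ℂ (A : Module.End ℂ V)).Nonempty :=
    spectrum.nonempty_of_isAlgClosed_of_finiteDimensional ℂ _
  have hsq : spectrum ℂ ((A : Module.End ℂ V) ^ 2) = spectrum ℂ (A : Module.End ℂ V) := by
    have e1 : ((A : Module.End ℂ V) ^ 2) = (T : Module.End ℂ V) * A * (T⁻¹ : (Module.End ℂ V)ˣ) := by
      rw [pow_two]
      have := congrArg Units.val h1
      simp only [Units.val_mul] at this
      exact this.symm
    rw [e1]
    exact spectrum.units_conjugate
  have hneg : ∀ l ∈ spectrum ℂ (A : Module.End ℂ V), -l ∈ spectrum ℂ (A : Module.End ℂ V) := by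
    intro l hl
    have e1 : (A : Module.End ℂ V) = -((D : Module.End ℂ V) * A * (D⁻¹ : (Module.End ℂ V)ˣ)) := by
      have e2 : (A : Module.End ℂ V) * D = -((D : Module.End ℂ V) * A) := by
        simpa only [Units.val_mul] using h2
      calc (A : Module.End ℂ V) = (A : Module.End ℂ V) * (D * (D⁻¹ : (Module.End ℂ V)ˣ)) := by
            rw [← Units.val_mul, mul_inv_cancel, Units.val_one, mul_one]
        _ = (A : Module.End ℂ V) * D * (D⁻¹ : (Module.End ℂ V)ˣ) := by rw [mul_assoc]
        _ = _ := by rw [e2, neg_mul]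
    have e3 : spectrum ℂ (-((D : Module.End ℂ V) * A * (D⁻¹ : (Module.End ℂ V)ˣ))) =
        -spectrum ℂ (A : Module.End ℂ V) := by
      rw [← spectrum.neg_eq, spectrum.units_conjugate]
    rw [← e1] at e3
    rw [e3, Set.mem_neg] at hl
    exact hl
  have himg : (fun z : ℂ => z ^ 2) '' spectrum ℂ (A : Module.End ℂ V) =
      spectrum ℂ (A : Module.End ℂ V) := by
    rw [← spectrum.map_pow_of_nonempty hne 2]
    exact hsq
  have hinj : Set.InjOn (fun z : ℂ => z ^ 2) (spectrum ℂ (A : Module.End ℂ V)) := by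
    have h3 : Set.MapsTo (fun z : ℂ => z ^ 2) (spectrum ℂ (A : Module.End ℂ V))
        (spectrum ℂ (A : Module.End ℂ V)) := by
      intro z hz
      rw [← himg]
      exact ⟨z, hz, rfl⟩
    have h4 : Set.SurjOn (fun z : ℂ => z ^ 2) (spectrum ℂ (A : Module.End ℂ V))
        (spectrum ℂ (A : Module.End ℂ V)) := by
      intro z hz
      rw [← himg] at hz
      exact hz
    exact ((hfin.surjOn_iff_bijOn_of_mapsTo h3).mp h4).injOn
  obtain ⟨l, hl⟩ := hne
  have h5 : l = -l := hinj hl (hneg l hl) (by ring)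
  have h6 : l = 0 := by
    have : 2 * l = 0 := by linear_combination h5
    rcases mul_eq_zero.mp this with h | h
    · norm_num at h
    · exact h
  rw [h6] at hl
  exact spectrum.zero_notMem ℂ A.isUnit hl

/-- the fixed space of `h h'` -/
def fixR {n : ℕ} (psi : Gam →* (E n ≃ₗᵢ[ℂ] E n)) : Submodule ℂ (E n) where
  carrier := {v | psi (h * h') v = v}
  add_mem' := by
    intro v w hv hw
    simp only [Set.mem_ofPred_eq] at hv hw ⊢
    rw [map_add, hv, hw]
  zero_mem' := map_zero _
  smul_mem' := by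
    intro c v hv
    simp only [Set.mem_ofPred_eq] at hv ⊢
    rw [map_smul, hv]

lemma mem_fixR {n : ℕ} (psi : Gam →* (E n ≃ₗᵢ[ℂ] E n)) (v : E n) :
    v ∈ fixR psi ↔ psi (h * h') v = v := Iff.rfl

lemma fixR_pos {n : ℕ} (hn : n ≠ 0) (psi : Gam →* (E n ≃ₗᵢ[ℂ] E n)) :
    Module.finrank ℂ (fixR psi) ≠ 0 := by
  intro h0
  have hbot : fixR psi = ⊥ := Submodule.finrank_eq_zero.mp h0
  have hneg : ∀ v, psi (h * h') v = -v := by
    intro v
    have h1 : v + psi (h * h') v ∈ fixR psi := by
      rw [mem_fixR, map_add]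
      have h2 : psi (h * h') (psi (h * h') v) = v := by
        have h3 : (h * h') * (h * h') = 1 := by
          calc h * h' * (h * h') = h * (h' * h) * h' := by group
            _ = (h * h) * (h' * h') := by rw [← rel3]; group
            _ = 1 := by rw [rel2, h'h', one_mul]
        have h4 := congrArg (fun g => psi g v) h3
        simp only [map_mul psi (h * h') (h * h'), map_one] at h4
        exact h4
      rw [h2, add_comm]
    rw [hbot, Submodule.mem_bot] at h1
    exact (neg_eq_of_add_eq_zero_right h1).symm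
  have : NeZero n := ⟨hn⟩
  let U : Gam →* (Module.End ℂ (E n))ˣ :=
    (LinearMap.GeneralLinearGroup.generalLinearEquiv ℂ (E n)).symm.toMonoidHom.comp
      ({ toFun := fun g => (psi g).toLinearEquiv
         map_one' := by rw [map_one]; rfl
         map_mul' := fun g k => by rw [map_mul]; rfl } : Gam →* (E n ≃ₗ[ℂ] E n))
  have hU : ∀ g v, (U g).val v = psi g v := fun g v => rfl
  refine key (U a) (U t) (U h) ?_ ?_
  · rw [← map_mul, ← map_inv, ← map_mul, rel1, map_mul]
  · -- `a h a⁻¹ = - h`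
    rw [← map_mul, ← map_mul]
    ext1 v
    rw [LinearMap.neg_apply, hU, hU]
    have h1 : a * h = h' * a := by unfold h'; group
    have h2 : h' = h * (h * h') := by rw [← mul_assoc, rel2, one_mul]
    rw [h1]
    have h3 : psi (h' * a) v = psi h (psi (h * h') (psi a v)) := by
      have h4 : h' * a = h * ((h * h') * a) := by
        rw [← mul_assoc h, ← h2]
      rw [h4, map_mul, map_mul]
      rfl
    rw [h3, hneg, map_neg, map_mul]
    rfl

/-! ### The examples in the linear setting -/

section examples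

open scoped Fin.CommRing

variable (k : ℕ)

/-- the index set -/
abbrev I : Type := Fin (2 * k + 1)

/-- doubling -/
def dbl : I k ≃ I k where
  toFun i := i + i
  invFun i := ((k + 1 : ℕ) : I k) * i
  left_inv i := by
    have h1 : ((2 * k + 1 : ℕ) : I k) = 0 := Fin.natCast_self _
    have h2 : ((k + 1 : ℕ) : I k) * (i + i) = ((2 * k + 1 : ℕ) : I k) * i + i := by
      push_cast
      ring
    beta_reduce
    rw [h2, h1, zero_mul, zero_add]
  right_inv i := by
    have h1 : ((2 * k + 1 : ℕ) : I k) = 0 := Fin.natCast_self _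
    have h2 : ((k + 1 : ℕ) : I k) * i + ((k + 1 : ℕ) : I k) * i = ((2 * k + 1 : ℕ) : I k) * i + i := by
      push_cast
      ring
    beta_reduce
    rw [h2, h1, zero_mul, zero_add]

/-- the shift -/
def sh : I k ≃ I k := Equiv.addRight 1

lemma dbl_sh (i : I k) : dbl k (sh k ((dbl k).symm i)) = sh k (sh k i) := by
  have h1 : dbl k ((dbl k).symm i) = i := Equiv.apply_symm_apply _ _
  have h2 : ∀ j : I k, dbl k (sh k j) = sh k (sh k (dbl k j)) := by
    intro j
    change (j + 1) + (j + 1) = (j + j) + 1 + 1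
    ring
  rw [h2, h1]

/-- the colour of an index -/
def col (i : I k) : Bool := decide (i.val % 2 = 1)

lemma col_pred {i : I k} (hi : i ≠ 0) : col k ((sh k).symm i) = !(col k i) := by
  have h1 : (sh k).symm i = i - 1 := by
    rw [Equiv.symm_apply_eq]
    change i = i - 1 + 1
    ring
  rw [h1]
  have h2 : (i - 1).val = i.val - 1 := by
    rw [Fin.val_sub_one_of_ne_zero hi]
  have h3 : i.val ≠ 0 := fun h => hi (Fin.ext h)
  unfold col
  rw [h2]
  by_cases h4 : i.val % 2 = 1
  · have h5 : ¬ (i.val - 1) % 2 = 1 := by omega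
    simp [h4, h5]
  · have h5 : (i.val - 1) % 2 = 1 := by omega
    simp [h4, h5]

/-- signs -/
def sgn (i : I k) : ℂ ≃ₗᵢ[ℂ] ℂ := if col k i then LinearIsometryEquiv.neg ℂ else LinearIsometryEquiv.refl ℂ ℂ

/-- the three isometries -/
def gR : Fin 3 → (E (2 * k + 1) ≃ₗᵢ[ℂ] E (2 * k + 1))
  | 0 => LinearIsometryEquiv.piLpCongrLeft 2 ℂ ℂ (sh k)
  | 1 => LinearIsometryEquiv.piLpCongrLeft 2 ℂ ℂ (dbl k)
  | 2 => LinearIsometryEquiv.piLpCongrRight 2 (sgn k)

lemma gR0 (v : E (2 * k + 1)) (i : I k) : gR k 0 v i = v ((sh k).symm i) := rfl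
lemma gR1 (v : E (2 * k + 1)) (i : I k) : gR k 1 v i = v ((dbl k).symm i) := rfl
lemma gR2 (v : E (2 * k + 1)) (i : I k) : gR k 2 v i = sgn k i (v i) := rfl

lemma gR0' (v : E (2 * k + 1)) (i : I k) : (gR k 0)⁻¹ v i = v (sh k i) := by
  have h1 : v = gR k 0 ((gR k 0)⁻¹ v) := ((gR k 0).apply_symm_apply v).symm
  conv_rhs => rw [h1, gR0, Equiv.symm_apply_apply]

lemma gR1' (v : E (2 * k + 1)) (i : I k) : (gR k 1)⁻¹ v i = v (dbl k i) := by
  have h1 : v = gR k 1 ((gR k 1)⁻¹ v) := ((gR k 1).apply_symm_apply v).symm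
  conv_rhs => rw [h1, gR1, Equiv.symm_apply_apply]

lemma sgn_mul (i j : I k) (z : ℂ) : sgn k i (sgn k j z) = sgn k j (sgn k i z) := by
  unfold sgn
  split_ifs <;> simp

lemma sgn_sq (i : I k) (z : ℂ) : sgn k i (sgn k i z) = z := by
  unfold sgn
  split_ifs <;> simp

/-- the representation of dimension `2k+1` -/
def psiR : Gam →* (E (2 * k + 1) ≃ₗᵢ[ℂ] E (2 * k + 1)) := lift (gR k)
  (by
    ext v i
    change gR k 1 (gR k 0 ((gR k 1)⁻¹ v)) i = gR k 0 (gR k 0 v) i
    rw [gR1, gR0, gR1', gR0, gR0]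
    have h1 : dbl k ((sh k).symm ((dbl k).symm i)) = (sh k).symm ((sh k).symm i) := by
      rw [Equiv.eq_symm_apply, Equiv.eq_symm_apply]
      have h2 : ∀ j : I k, sh k (sh k (dbl k j)) = dbl k (sh k j) := by
        intro j
        have := dbl_sh k (dbl k j)
        rw [Equiv.symm_apply_apply] at this
        exact this.symm
      rw [h2, Equiv.apply_symm_apply, Equiv.apply_symm_apply]
    rw [h1])
  (by
    ext v i
    change gR k 2 (gR k 2 v) i = v i
    rw [gR2, gR2, sgn_sq])
  (by
    ext v i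
    change gR k 2 (gR k 0 (gR k 2 ((gR k 0)⁻¹ v))) i = gR k 0 (gR k 2 ((gR k 0)⁻¹ (gR k 2 v))) i
    rw [gR2, gR0, gR2, gR0', gR0, gR2, gR0', gR2]
    rw [Equiv.apply_symm_apply, sgn_mul])

lemma psiR_h (v : E (2 * k + 1)) (i : I k) : psiR k h v i = sgn k i (v i) := by
  have : psiR k h = gR k 2 := lift_of _ _ _ _ _
  rw [this, gR2]

lemma psiR_hh (v : E (2 * k + 1)) (i : I k) :
    psiR k (h * h') v i = sgn k i (sgn k ((sh k).symm i) (v i)) := by
  have e0 : psiR k a = gR k 0 := lift_of _ _ _ _ _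
  have e2 : psiR k h = gR k 2 := lift_of _ _ _ _ _
  have e3 : psiR k (h * h') = gR k 2 * (gR k 0 * gR k 2 * (gR k 0)⁻¹) := by
    unfold h'
    rw [map_mul, map_mul, map_mul, map_inv, e0, e2]
  rw [e3]
  change gR k 2 (gR k 0 (gR k 2 ((gR k 0)⁻¹ v))) i = _
  rw [gR2, gR0, gR2, gR0', Equiv.apply_symm_apply]

lemma sgn_eq {i j : I k} (hij : col k j = !(col k i)) (z : ℂ) : sgn k i (sgn k j z) = -z := by
  unfold sgn
  rw [hij]
  cases col k i <;> simp

lemma fix_le_one : Module.finrank ℂ (fixR (psiR k)) ≤ 1 := by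
  let f : fixR (psiR k) →ₗ[ℂ] ℂ := {
    toFun := fun v => v.1 0
    map_add' := fun v w => rfl
    map_smul' := fun c v => rfl }
  have hf : Function.Injective f := by
    rw [injective_iff_map_eq_zero]
    rintro ⟨v, hv⟩ h0
    apply Subtype.ext
    ext i
    by_cases hi : i = 0
    · rw [hi]
      exact h0
    · have h1 : psiR k (h * h') v = v := hv
      have h2 := congrArg (fun w : E (2 * k + 1) => w i) h1
      simp only at h2
      rw [psiR_hh, sgn_eq k (col_pred k hi)] at h2
      have h3 : v i = 0 := by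
        have : 2 * v i = 0 := by linear_combination -h2
        rcases mul_eq_zero.mp this with h | h
        · norm_num at h
        · exact h
      exact h3
  have := LinearMap.finrank_le_finrank_of_injective hf
  rwa [Module.finrank_self] at this

end examples

lemma sum_le {r : ℕ} {d c f : Fin r → ℕ} (hf : ∀ j, d j ≠ 0 → f j ≠ 0) :
    ∑ j, c j * d j ≤ (∑ j, d j) * ∑ j, c j * f j := by
  rw [Finset.mul_sum]
  refine Finset.sum_le_sum fun j _ => ?_
  by_cases h0 : d j = 0
  · rw [h0, mul_zero]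
    exact Nat.zero_le _
  · have h1 : d j ≤ ∑ j, d j := Finset.single_le_sum (fun _ _ => Nat.zero_le _) (Finset.mem_univ j)
    have h2 : 1 ≤ f j := Nat.one_le_iff_ne_zero.mpr (hf j h0)
    calc c j * d j = d j * (c j * 1) := by ring
      _ ≤ (∑ j, d j) * (c j * f j) := Nat.mul_le_mul h1 (Nat.mul_le_mul_left _ h2)

/-- setting (R) -/
theorem not_finGenR : ¬ FinGenR Gam H := by
  intro hG
  obtain ⟨r, d, phi, hgen⟩ := finGenR' hG
  set D := ∑ j, d j with hD
  obtain ⟨c, e, he⟩ := hgen (2 * D + 1) (psiR D)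
  have hn : 2 * D + 1 = ∑ j, c j * d j := by
    have h1 := e.finrank_eq
    rw [Module.finrank_pi_fintype] at h1
    simp only [Module.finrank_pi_fintype, finrank_euclideanSpace_fin, Finset.sum_const,
      Finset.card_univ, Fintype.card_fin, smul_eq_mul] at h1
    exact h1
  have hL : ∑ j, c j * Module.finrank ℂ (fixR (phi j)) ≤ Module.finrank ℂ (fixR (psiR D)) := by
    have h1 : Module.finrank ℂ (∀ j, Fin (c j) → fixR (phi j)) =
        ∑ j, c j * Module.finrank ℂ (fixR (phi j)) := by
      rw [Module.finrank_pi_fintype]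
      simp only [Module.finrank_pi_fintype, Finset.sum_const,
        Finset.card_univ, Fintype.card_fin, smul_eq_mul]
    rw [← h1]
    let g : (∀ j, Fin (c j) → fixR (phi j)) →ₗ[ℂ] fixR (psiR D) := {
      toFun := fun w => ⟨e.symm (fun j k => (w j k : E (d j))), by
        rw [mem_fixR]
        apply e.injective
        funext j k
        rw [he _ mem_H, LinearEquiv.apply_symm_apply]
        exact (w j k).2⟩
      map_add' := by
        intro w w'
        apply Subtype.ext
        change e.symm _ = e.symm _ + e.symm _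
        rw [← map_add]
        rfl
      map_smul' := by
        intro z w
        apply Subtype.ext
        change e.symm _ = z • e.symm _
        rw [← map_smul]
        rfl }
    refine LinearMap.finrank_le_finrank_of_injective (f := g) ?_
    intro w w' hw
    have h2 : e.symm (fun j k => (w j k : E (d j))) = e.symm (fun j k => (w' j k : E (d j))) :=
      congrArg Subtype.val hw
    have h3 := e.symm.injective h2
    funext j k
    exact Subtype.ext (congrFun (congrFun h3 j) k)
  have h1 := sum_le (c := c) (fun j hj => fixR_pos hj (phi j))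
  have h2 := fix_le_one D
  rw [← hn, ← hD] at h1
  have h3 : D * ∑ j, c j * Module.finrank ℂ (fixR (phi j)) ≤ D * 1 :=
    Nat.mul_le_mul_left _ (hL.trans h2)
  omega

/-! ### Actions -/

/-- the points at which `h` and `h'` behave in the same way -/
def same {X : Type} (psi : Gam →* Equiv.Perm X) : Type := {x : X // psi h x = x ↔ psi h' x = x}

lemma same_pos {n : ℕ} (hn : n ≠ 0) (psi : Gam →* Equiv.Perm (Fin n)) : Nat.card (same psi) ≠ 0 := by
  intro h0
  have hfin : Finite (same psi) := Subtype.finite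
  have hemp : IsEmpty (same psi) := (Finite.card_eq_zero_iff).mp h0
  have hx : ∀ x, ¬ (psi h x = x ↔ psi h' x = x) := fun x hx => hemp.false ⟨x, hx⟩
  have hprime : ∀ x, psi h' x = x ↔ psi h ((psi a)⁻¹ x) = (psi a)⁻¹ x := by
    intro x
    have e1 : psi h' x = psi a (psi h ((psi a)⁻¹ x)) := by
      unfold h'
      rw [map_mul, map_mul, map_inv]
      rfl
    rw [e1, Equiv.Perm.eq_inv_iff_eq]
  have hflip : ∀ x, (psi h (psi a x) = psi a x) ↔ ¬ (psi h x = x) := by
    intro x
    have h1 := hx (psi a x)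
    have h2 : (psi a)⁻¹ (psi a x) = x := Equiv.symm_apply_apply (psi a) x
    rw [hprime, h2] at h1
    tauto
  have hpow : ∀ (m : ℕ) (x : Fin n), (psi h ((psi a ^ m) x) = (psi a ^ m) x) ↔
      (if m % 2 = 0 then psi h x = x else ¬ (psi h x = x)) := by
    intro m
    induction m with
    | zero => intro x; simp
    | succ m ih =>
      intro x
      have h1 : (psi a ^ (m + 1)) x = psi a ((psi a ^ m) x) := by rw [pow_succ']; rfl
      rw [h1, hflip, ih]
      by_cases hm : m % 2 = 0
      · have h2 : ¬ (m + 1) % 2 = 0 := by omega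
        rw [if_pos hm, if_neg h2]
      · have h2 : (m + 1) % 2 = 0 := by omega
        rw [if_neg hm, if_pos h2, not_not]
  -- the order of `psi a` is odd
  have hodd : orderOf (psi a) % 2 ≠ 0 := by
    intro h2
    obtain ⟨m, hm⟩ : ∃ m, orderOf (psi a) = 2 * m := ⟨orderOf (psi a) / 2, by omega⟩
    have h3 : (psi a * psi a) ^ m = 1 := by rw [← pow_two, ← pow_mul, ← hm, pow_orderOf_eq_one]
    have h4 : psi t * psi a * (psi t)⁻¹ = psi a * psi a := by
      rw [← map_inv, ← map_mul, ← map_mul, rel1, map_mul]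
    rw [← h4, conj_pow] at h3
    have h5 : psi a ^ m = 1 := by
      have h6 : psi a ^ m = (psi t)⁻¹ * (psi t * psi a ^ m * (psi t)⁻¹) * psi t := by group
      rw [h6, h3]
      group
    have h6 := orderOf_dvd_of_pow_eq_one h5
    rw [hm] at h6
    have h7 := orderOf_pos (psi a)
    have h8 := Nat.le_of_dvd (by omega) h6
    omega
  have h9 := hpow (orderOf (psi a)) ⟨0, Nat.pos_of_ne_zero hn⟩
  rw [pow_orderOf_eq_one, if_neg hodd] at h9
  simp only [Equiv.Perm.one_apply] at h9
  tauto

section examplesA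

variable (k : ℕ)

open scoped Fin.CommRing

/-- the three permutations -/
def gA : Fin 3 → Equiv.Perm (I k × Bool)
  | 0 => Equiv.prodCongr (sh k) (Equiv.refl Bool)
  | 1 => Equiv.prodCongr (dbl k) (Equiv.refl Bool)
  | 2 => { toFun := fun p => (p.1, xor (col k p.1) p.2)
           invFun := fun p => (p.1, xor (col k p.1) p.2)
           left_inv := fun p => by simp
           right_inv := fun p => by simp }

lemma gA0 (p : I k × Bool) : gA k 0 p = (sh k p.1, p.2) := rfl
lemma gA1 (p : I k × Bool) : gA k 1 p = (dbl k p.1, p.2) := rfl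
lemma gA2 (p : I k × Bool) : gA k 2 p = (p.1, xor (col k p.1) p.2) := rfl
lemma gA0' (p : I k × Bool) : (gA k 0)⁻¹ p = ((sh k).symm p.1, p.2) := rfl
lemma gA1' (p : I k × Bool) : (gA k 1)⁻¹ p = ((dbl k).symm p.1, p.2) := rfl

/-- the action on `2(2k+1)` points -/
def psiA : Gam →* Equiv.Perm (I k × Bool) := lift (gA k)
  (by
    ext1 p
    change gA k 1 (gA k 0 ((gA k 1)⁻¹ p)) = gA k 0 (gA k 0 p)
    rw [gA1', gA0, gA1, gA0, gA0]
    simp only
    rw [dbl_sh])
  (by
    ext1 p
    change gA k 2 (gA k 2 p) = p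
    rw [gA2, gA2]
    simp)
  (by
    ext1 p
    change gA k 2 (gA k 0 (gA k 2 ((gA k 0)⁻¹ p))) = gA k 0 (gA k 2 ((gA k 0)⁻¹ (gA k 2 p)))
    rw [gA0', gA2, gA0, gA2, gA2, gA0', gA2, gA0]
    simp only [Equiv.apply_symm_apply]
    congr 1
    rw [← Bool.xor_assoc, ← Bool.xor_assoc, Bool.xor_comm (col k p.1)])

lemma psiA_h (p : I k × Bool) : psiA k h p = (p.1, xor (col k p.1) p.2) := by
  have : psiA k h = gA k 2 := lift_of _ _ _ _ _
  rw [this, gA2]

lemma psiA_h' (p : I k × Bool) : psiA k h' p = (p.1, xor (col k ((sh k).symm p.1)) p.2) := by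
  have e0 : psiA k a = gA k 0 := lift_of _ _ _ _ _
  have e2 : psiA k h = gA k 2 := lift_of _ _ _ _ _
  have e3 : psiA k h' = gA k 0 * gA k 2 * (gA k 0)⁻¹ := by
    unfold h'
    rw [map_mul, map_mul, map_inv, e0, e2]
  rw [e3]
  change gA k 0 (gA k 2 ((gA k 0)⁻¹ p)) = _
  rw [gA0', gA2, gA0]
  simp only [Equiv.apply_symm_apply]

lemma same_le_two : Nat.card (same (psiA k)) ≤ 2 := by
  have h1 : Nat.card Bool = 2 := by simp
  rw [← h1]
  refine Nat.card_le_card_of_injective (fun x : same (psiA k) => x.1.2) ?_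
  have h0 : ∀ x : same (psiA k), x.1.1 = 0 := by
    rintro ⟨⟨i, b⟩, hx⟩
    by_contra hi
    simp only at hi
    rw [psiA_h, psiA_h'] at hx
    simp only [Prod.mk.injEq, true_and] at hx
    rw [col_pred k hi] at hx
    cases h2 : col k i <;> cases b <;> rw [h2] at hx <;> simp at hx
  intro x y hxy
  apply Subtype.ext
  exact Prod.ext ((h0 x).trans (h0 y).symm) hxy

end examplesA

/-- setting (A) -/
theorem not_finGenA : ¬ FinGenA Gam H := by
  intro hG
  obtain ⟨r, d, phi, hgen⟩ := finGenA' hG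
  set D := ∑ j, d j with hD
  obtain ⟨n, ⟨eq⟩⟩ := Finite.exists_equiv_fin (I D × Bool)
  set psi : Gam →* Equiv.Perm (Fin n) := (Equiv.permCongrHom eq).toMonoidHom.comp (psiA D) with hpsi
  have hpv : ∀ g x, psi g x = eq (psiA D g (eq.symm x)) := fun g x => rfl
  obtain ⟨c, e, he⟩ := hgen n psi
  have hn1 : n = 2 * (2 * D + 1) := by
    have h1 := Nat.card_congr eq
    rw [Nat.card_prod, Nat.card_fin] at h1
    simp only [Nat.card_eq_fintype_card, Fintype.card_fin, Fintype.card_bool] at h1
    omega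
  have hn : n = ∑ j, c j * d j := by
    have h1 := Fintype.card_congr e
    simpa only [Fintype.card_fin, Fintype.card_sigma, Fintype.card_prod] using h1
  have hle : Nat.card (same psi) ≤ 2 := by
    have : Finite (same (psiA D)) := Subtype.finite
    refine le_trans ?_ (same_le_two D)
    refine Nat.card_le_card_of_injective (fun x : same psi => (⟨eq.symm x.1, ?_⟩ : same (psiA D))) ?_
    · have h1 := x.2
      rw [hpv, hpv] at h1
      have h2 : ∀ y, eq y = x.1 ↔ y = eq.symm x.1 := fun y => (Equiv.eq_symm_apply eq).symm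
      rw [h2, h2] at h1
      exact h1
    · intro x y hxy
      have h1 : eq.symm x.1 = eq.symm y.1 := congrArg Subtype.val hxy
      exact Subtype.ext (eq.symm.injective h1)
  have hfin : ∀ {m : ℕ} (chi : Gam →* Equiv.Perm (Fin m)), Finite (same chi) :=
    fun chi => Subtype.finite
  have hL : ∑ j, c j * Nat.card (same (phi j)) ≤ Nat.card (same psi) := by
    have h1 : Nat.card (Σ j, Fin (c j) × same (phi j)) = ∑ j, c j * Nat.card (same (phi j)) := by
      rw [Nat.card_sigma]
      refine Finset.sum_congr rfl fun j _ => ?_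
      rw [Nat.card_prod, Nat.card_fin]
    rw [← h1]
    refine Nat.card_le_card_of_injective (fun w : (Σ j, Fin (c j) × same (phi j)) =>
      (⟨e.symm ⟨w.1, w.2.1, w.2.2.1⟩, ?_⟩ : same psi)) ?_
    · obtain ⟨j, i, y, hy⟩ := w
      have h2 : ∀ g ∈ H, (psi g (e.symm ⟨j, i, y⟩) = e.symm ⟨j, i, y⟩ ↔ phi j g y = y) := by
        intro g hg
        rw [← e.apply_eq_iff_eq, he g hg, Equiv.apply_symm_apply]
        constructor
        · intro h3
          have h4 : ((⟨j, i, phi j g y⟩ : Σ j, Fin (c j) × Fin (d j))) = ⟨j, i, y⟩ := h3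
          simpa using h4
        · intro h3
          change ((⟨j, i, phi j g y⟩ : Σ j, Fin (c j) × Fin (d j))) = ⟨j, i, y⟩
          rw [h3]
      change (psi h (e.symm ⟨j, i, y⟩) = e.symm ⟨j, i, y⟩ ↔ psi h' (e.symm ⟨j, i, y⟩) = e.symm ⟨j, i, y⟩)
      rw [h2 h mem_h, h2 h' mem_h']
      exact hy
    · rintro ⟨j, i, y⟩ ⟨j', i', y'⟩ hw
      have h2 : e.symm ⟨j, i, y.1⟩ = e.symm ⟨j', i', y'.1⟩ := congrArg Subtype.val hw
      have h3 := e.symm.injective h2
      obtain ⟨rfl, h4⟩ := Sigma.mk.inj_iff.mp h3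
      have h5 := eq_of_heq h4
      rw [Prod.mk.injEq] at h5
      rw [h5.1, Subtype.ext h5.2]
  have h1 := sum_le (c := c) (fun j hj => same_pos hj (phi j))
  rw [← hn, ← hD] at h1
  have h3 : D * ∑ j, c j * Nat.card (same (phi j)) ≤ D * 2 :=
    Nat.mul_le_mul_left _ (hL.trans hle)
  omega

/-- **Main theorem.** There are a finitely generated group `G` and a finite subgroup `H` such that
the image of the restriction map is not finitely generated, neither for unitary representations nor
for actions on finite sets. -/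
theorem result : ∃ (G : Type) (_ : Group G) (H : Subgroup G),
    Group.FG G ∧ Finite H ∧ ¬ FinGenR G H ∧ ¬ FinGenA G H :=
  ⟨Gam, inferInstance, H, fg, finiteH, not_finGenR, not_finGenA⟩

end Pool.Agent.Results.MP_af3a77_al.NotFinitelyGenerated
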